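import Pool.Agent.Helper60.T3.GoalsI

/-!
Packet T3-CASA (MP_a41896_nt): curve lemma, the slope of the second curve is not constant.
-/

set_option autoImplicit false

open MvPolynomial

namespace Pool.Agent.Helper18.T3.CASA

open WeierstrassCurve Pool.Agent.Helper60.T3
open Pool.Agent.Helper29.BL Pool.Agent.Helper92.Ru Pool.Agent.Helper42.SG

/-- degrees of a partial derivative -/
lemma deg_pderiv {K σ : Type} [Field K] [DecidableEq σ] (i j : σ) (p : MvPolynomial σ K) (D : ℕ)
    (h : degreeOf j p ≤ D) : degreeOf j (pderiv i p) ≤ D := by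
  rw [degreeOf_le_iff] at h ⊢
  intro m hm
  rw [mem_support_iff] at hm
  have h1 : coeff (m + Finsupp.single i 1) p ≠ 0 := by
    intro h0
    apply hm
    rw [coeff_pderiv, h0, zero_mul]
  have h2 := h _ (mem_support_iff.2 h1)
  rw [Finsupp.add_apply] at h2
  omega

lemma deg_map {K L σ : Type} [Field K] [Field L] (f : K →+* L) (j : σ) (p : MvPolynomial σ K)
    (D : ℕ) (h : degreeOf j p ≤ D) : degreeOf j (MvPolynomial.map f p) ≤ D := by
  rw [degreeOf_le_iff] at h ⊢
  intro m hm
  exact h m (support_map_subset _ _ hm)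

lemma deg_ren {K : Type} [Field K] {n m : ℕ} (f : Fin n → Fin m)
    (p : MvPolynomial (Fin n) K) (j : Fin m) (D : ℕ)
    (hf : Function.Injective f) (h : ∀ i, f i = j → degreeOf i p ≤ D) :
    degreeOf j (rename f p) ≤ D := by
  by_cases hj : ∃ i, f i = j
  · obtain ⟨i, rfl⟩ := hj
    rw [degreeOf_rename_of_injective hf]
    exact h i rfl
  · push Not at hj
    have h0 : degreeOf j (rename f p) = 0 := by
      rw [← Nat.le_zero, degreeOf_le_iff]
      intro m hm
      rw [support_rename_of_injective hf] at hm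
      rw [Finset.mem_image] at hm
      obtain ⟨u, -, rfl⟩ := hm
      rw [Finsupp.mapDomain_of_notMem_range]
      rintro ⟨i, hi⟩
      exact hj i hi
    omega

/-- transfer of a polynomial over `k` in two variables -/
lemma aev_ren {k κ L : Type} [Field k] [Field κ] [Field L] [Algebra k κ] [Algebra κ L]
    [Algebra k L] [IsScalarTower k κ L] {m : ℕ} (f : Fin 2 → Fin m) (y : Fin m → L)
    (p : MvPolynomial (Fin 2) k) (a b : L) (ha : y (f 0) = a) (hb : y (f 1) = b) :
    aeval y (rename f (MvPolynomial.map (algebraMap k κ) p)) = aeval ![a, b] p := by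
  rw [aeval_rename, aeval_map_algebraMap]
  congr 2
  funext i
  fin_cases i
  · exact ha
  · exact hb

lemma rel_of {k κ L : Type} [Field k] [Field κ] [Field L] [Algebra k κ] [Algebra κ L]
    [Algebra k L] [IsScalarTower k κ L] (g : MvPolynomial (Fin 2) k) (D : ℕ) (x y : L)
    (hg : g ≠ 0) (hd : ∀ i, g.degreeOf i ≤ D) (h : aeval ![x, y] g = 0) : Rel κ y x D D := by
  have hf : Function.Injective (![1, 0] : Fin 2 → Fin 2) := by decide
  refine ⟨rename ![1, 0] (MvPolynomial.map (algebraMap k κ) g), ?_, ?_, ?_, ?_⟩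
  · intro h0
    apply hg
    have h1 := rename_injective _ hf (h0.trans (map_zero _).symm)
    exact map_injective _ (algebraMap k κ).injective (h1.trans (map_zero _).symm)
  · exact deg_ren _ _ _ _ hf fun i _ => deg_map _ _ _ _ (hd i)
  · exact deg_ren _ _ _ _ hf fun i _ => deg_map _ _ _ _ (hd i)
  · rw [aev_ren ![1, 0] ![y, x] g x y (by simp) (by simp), h]

lemma rel_self (κ : Type) {L : Type} [Field κ] [Field L] [Algebra κ L] (x : L) :
    Rel κ x x 1 1 := by
  refine ⟨X 0 - X 1, ?_, ?_, ?_, by simp⟩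
  · intro h
    have := congrArg (eval ![(1 : κ), 0]) h
    simp at this
  · refine (degreeOf_sub_le _ _ _).trans (max_le ?_ ?_) <;> simp [degreeOf_X]
  · refine (degreeOf_sub_le _ _ _).trans (max_le ?_ ?_) <;> simp [degreeOf_X]

/-- `B(X_i)` as a polynomial -/
noncomputable def BP {κ : Type} [Field κ] (W : Affine κ) {m : ℕ} (i : Fin m) :
    MvPolynomial (Fin m) κ :=
  C 4 * X i ^ 3 + C W.b₂ * X i ^ 2 + C (2 * W.b₄) * X i + C W.b₆

lemma BP_deg {κ : Type} [Field κ] (W : Affine κ) {m : ℕ} (i j : Fin m) :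
    degreeOf j (BP W i) ≤ if j = i then 3 else 0 := by
  have hx : ∀ n : ℕ, degreeOf j (X i ^ n : MvPolynomial (Fin m) κ) ≤ if j = i then n else 0 := by
    intro n
    refine (degreeOf_pow_le _ _ _).trans ?_
    rw [degreeOf_X]
    split_ifs <;> simp
  unfold BP
  refine (degreeOf_add_le _ _ _).trans (max_le ((degreeOf_add_le _ _ _).trans (max_le
    ((degreeOf_add_le _ _ _).trans (max_le ?_ ?_)) ?_)) ?_)
  · exact (degreeOf_C_mul_le _ _ _).trans (hx 3)
  · refine (degreeOf_C_mul_le _ _ _).trans ((hx 2).trans ?_)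
    split_ifs <;> omega
  · refine (degreeOf_C_mul_le _ _ _).trans ?_
    have := hx 1
    rw [pow_one] at this
    refine this.trans ?_
    split_ifs <;> omega
  · rw [degreeOf_C]
    exact Nat.zero_le _

lemma BP_aev {k κ L : Type} [Field k] [Field κ] [Field L] [Algebra k κ] [Algebra κ L]
    [Algebra k L] [IsScalarTower k κ L] (W : Affine k) {m : ℕ} (y : Fin m → L) (i : Fin m) :
    aeval y (BP (WL κ W) i) = Bf (WL L W) (y i) := by
  have h4 : (algebraMap κ L) 4 = 4 := map_ofNat _ 4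
  have h2 : (algebraMap κ L) 2 = 2 := map_ofNat _ 2
  unfold BP Bf WL
  simp only [map_add, map_mul, map_pow, aeval_C, aeval_X, WeierstrassCurve.map_b₂,
    WeierstrassCurve.map_b₄, WeierstrassCurve.map_b₆, h4, h2]
  simp only [← IsScalarTower.algebraMap_apply k κ L]

/-- the slope relation -/
lemma slope (hELM : S_ELM) {k κ L : Type} [Field k] [Field κ] [Field L] [Algebra k κ]
    [Algebra κ L] [Algebra k L] [IsScalarTower k κ L] (W2 W3 : Affine k)
    (g : MvPolynomial (Fin 2) k) (D : ℕ) (x y s : L) (c : κ) (hx : Transcendental κ x)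
    (hg : g ≠ 0) (hd : ∀ i, g.degreeOf i ≤ D) (h : aeval ![x, y] g = 0)
    (hs : s ^ 2 * N1c W3 g x y = algebraMap κ L c * N0c W2 g x y) (hn : N1c W3 g x y ≠ 0) :
    Rel κ s x (2 * (D * 1 * 2)) (2 * (D * 1 * 2) * ((2 * D + 3) * D + (2 * D + 3) * 1)) := by
  classical
  have hf : Function.Injective (![1, 0] : Fin 2 → Fin 3) := by decide
  set G0 : MvPolynomial (Fin 3) κ :=
    rename ![1, 0] (MvPolynomial.map (algebraMap k κ) (pderiv 0 g)) with hG0
  set G1 : MvPolynomial (Fin 3) κ :=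
    rename ![1, 0] (MvPolynomial.map (algebraMap k κ) (pderiv 1 g)) with hG1
  have hG0d : ∀ j, degreeOf j G0 ≤ if j = 2 then 0 else D := by
    intro j
    refine deg_ren _ _ _ _ hf fun i hi => ?_
    have hj : j ≠ 2 := by
      rintro rfl
      fin_cases i <;> simp at hi
    rw [if_neg hj]
    exact deg_map _ _ _ _ (deg_pderiv _ _ _ _ (hd i))
  have hG1d : ∀ j, degreeOf j G1 ≤ if j = 2 then 0 else D := by
    intro j
    refine deg_ren _ _ _ _ hf fun i hi => ?_
    have hj : j ≠ 2 := by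
      rintro rfl
      fin_cases i <;> simp at hi
    rw [if_neg hj]
    exact deg_map _ _ _ _ (deg_pderiv _ _ _ _ (hd i))
  set G : MvPolynomial (Fin 3) κ :=
    X 2 ^ 2 * (BP (WL κ W3) 0 * G1 ^ 2) - C c * (BP (WL κ W2) 1 * G0 ^ 2) with hG
  have hGe : ∀ r : L, aeval ![y, x, r] G = r ^ 2 * N1c W3 g x y - algebraMap κ L c * N0c W2 g x y := by
    intro r
    rw [hG, hG0, hG1]
    simp only [map_sub, map_mul, map_pow, aeval_X, aeval_C, BP_aev]
    rw [aev_ren ![1, 0] ![y, x, r] (pderiv 0 g) x y (by simp) (by simp),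
      aev_ren ![1, 0] ![y, x, r] (pderiv 1 g) x y (by simp) (by simp)]
    simp [N1c, N0c]
  have hGd : ∀ j, degreeOf j G ≤ if j = 2 then 2 else 2 * D + 3 := by
    intro j
    have b3 := BP_deg (WL κ W3) (0 : Fin 3) j
    have b2 := BP_deg (WL κ W2) (1 : Fin 3) j
    have g0 := hG0d j
    have g1 := hG1d j
    have p0 := degreeOf_pow_le j G0 2
    have p1 := degreeOf_pow_le j G1 2
    have x2 : degreeOf j (X 2 ^ 2 : MvPolynomial (Fin 3) κ) ≤ if j = 2 then 2 else 0 := by
      refine (degreeOf_pow_le _ _ _).trans ?_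
      rw [degreeOf_X]
      split_ifs <;> simp
    have m1 := degreeOf_mul_le j (BP (WL κ W3) 0) (G1 ^ 2)
    have m2 := degreeOf_mul_le j (X 2 ^ 2 : MvPolynomial (Fin 3) κ) (BP (WL κ W3) 0 * G1 ^ 2)
    have m3 := degreeOf_mul_le j (BP (WL κ W2) 1) (G0 ^ 2)
    have m4 := degreeOf_C_mul_le (BP (WL κ W2) 1 * G0 ^ 2) j c
    refine (degreeOf_sub_le _ _ _).trans (max_le ?_ ?_)
    · refine m2.trans ?_
      by_cases hj : j = 2
      · subst hj
        simp only [if_true, Fin.reduceEq, if_false] at *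
        omega
      · rw [if_neg hj] at *
        have : degreeOf j (BP (WL κ W3) 0) ≤ 3 := b3.trans (by split_ifs <;> omega)
        omega
    · refine m4.trans (m3.trans ?_)
      by_cases hj : j = 2
      · subst hj
        simp only [if_true, Fin.reduceEq, if_false] at *
        omega
      · rw [if_neg hj] at *
        have : degreeOf j (BP (WL κ W2) 1) ≤ 3 := b2.trans (by split_ifs <;> omega)
        omega
  refine hELM κ L x y x s D D 1 1 (2 * D + 3) (2 * D + 3) 2 G hx (rel_of g D x y hg hd h)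
    (rel_self κ x) ?_ ?_ ?_ ?_ ?_
  · simpa using hGd 0
  · simpa using hGd 1
  · simpa using hGd 2
  · rw [hGe, hs, sub_self]
  · by_contra hcon
    push Not at hcon
    have h0 := hcon 0
    have h1 := hcon 1
    rw [hGe] at h0 h1
    apply hn
    linear_combination h1 - h0

/-- an element not in the algebraically closed field is transcendental -/
lemma tra_of {κ L : Type} [Field κ] [IsAlgClosed κ] [Field L] [Algebra κ L] (z : L)
    (hz : z ∉ Set.range (algebraMap κ L)) : Transcendental κ z := by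
  intro hal
  apply hz
  have hint : IsIntegral κ z := hal.isIntegral
  have h1 : (minpoly κ z).degree = 1 :=
    IsAlgClosed.degree_eq_one_of_irreducible κ (minpoly.irreducible hint)
  exact minpoly.mem_range_of_degree_eq_one κ z h1

/-- for transcendental `z`, `P(z, .) ≠ 0` -/
lemma exists_ne {κ L : Type} [Field κ] [Infinite κ] [Field L] [Algebra κ L] (z : L)
    (hz : Transcendental κ z) (P : MvPolynomial (Fin 2) κ) (hP : P ≠ 0) :
    ∃ c : L, aeval ![z, c] P ≠ 0 := by
  obtain ⟨a, ha⟩ : ∃ a : Fin 2 → κ, eval a P ≠ 0 := by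
    by_contra hcon
    push Not at hcon
    exact hP (MvPolynomial.funext fun a => by rw [hcon a, map_zero])
  set q : Polynomial κ := aeval ![Polynomial.X, Polynomial.C (a 1)] P with hq
  have h1 : ∀ (A : Type) [CommRing A] [Algebra κ A] (w : A), Polynomial.aeval w q =
      aeval ![w, algebraMap κ A (a 1)] P := by
    intro A _ _ w
    rw [hq, ← AlgHom.comp_apply, ]
    congr 1
    apply MvPolynomial.algHom_ext
    intro i
    fin_cases i
    · simp
    · simp
  have hq0 : q ≠ 0 := by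
    intro h0
    have h2 := h1 κ (a 0)
    rw [h0, map_zero] at h2
    apply ha
    have h3 : (aeval ![a 0, (algebraMap κ κ) (a 1)]) P = eval a P := by
      rw [aeval_eq_eval]
      congr 2
      funext i
      fin_cases i <;> simp
    rw [← h3, ← h2]
  refine ⟨algebraMap κ L (a 1), ?_⟩
  rw [← h1 L z]
  intro h0
  exact hz ⟨q, hq0, h0⟩

theorem t (hELM : S_ELM) (hTORS : S_TORS) : S_CASA := by
  intro D0 B
  set u1 : ℕ := 2 * (D0 * 1 * 2) with hu1
  set C1 : ℕ := u1 * ((2 * D0 + 3) * D0 + (2 * D0 + 3) * 1) with hC1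
  set U : ℕ := 2 * (u1 * B * 1) with hU
  refine ⟨2 * (U * 1 * C1) * (u1 * (U * (C1 + B))), ?_⟩
  intro k κ L _ _ _ _ _ _ _ _ _ _ _ W2 W3 _ _ e d g g' a2 b2 a3 b3 D hCD hDF hd hrel hnr
  have : Infinite κ := IsAlgClosed.instInfinite
  have hf : Function.Injective (![0, 2] : Fin 2 → Fin 3) := by decide
  have r1 : Rel κ (zd D a3) (xc a2) u1 C1 :=
    slope hELM W2 W3 g D0 (xc a2) (xc a3) (zd D a3) (1 : κ) hCD.tra hCD.irr.ne_zero hCD.deg
      hCD.on (by rw [map_one, one_mul]; exact hDF.ea) hDF.na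
  have r2 : Rel κ (zd D b3) (xc a2) U (U * (1 * C1 + 1 * (B * d))) := by
    refine hELM κ L (xc a2) (zd D a3) (zd D ((2 ^ e) • a3 - b3)) (zd D b3) u1 C1 B (B * d) 1 1 1
      (C (2 ^ e) * X 0 - X 1 - X 2) hCD.tra r1 hrel ?_ ?_ ?_ ?_ ?_
    · refine (degreeOf_sub_le _ _ _).trans (max_le ((degreeOf_sub_le _ _ _).trans
        (max_le ((degreeOf_C_mul_le _ _ _).trans ?_) ?_)) ?_) <;> simp [degreeOf_X]
    · refine (degreeOf_sub_le _ _ _).trans (max_le ((degreeOf_sub_le _ _ _).trans
        (max_le ((degreeOf_C_mul_le _ _ _).trans ?_) ?_)) ?_) <;> simp [degreeOf_X]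
    · refine (degreeOf_sub_le _ _ _).trans (max_le ((degreeOf_sub_le _ _ _).trans
        (max_le ((degreeOf_C_mul_le _ _ _).trans ?_) ?_)) ?_) <;> simp [degreeOf_X]
    · have hz := hDF.zw3
      simp only [map_sub, map_mul, aeval_C, aeval_X, map_pow, map_ofNat, Matrix.cons_val_zero,
        Matrix.cons_val_one, Matrix.cons_val]
      rw [hz]
      ring
    · by_contra hcon
      push Not at hcon
      have h0 := hcon 0
      have h1 := hcon 1
      simp only [map_sub, map_mul, aeval_C, aeval_X, map_pow, map_ofNat, Matrix.cons_val_zero,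
        Matrix.cons_val_one, Matrix.cons_val] at h0 h1
      have : (1 : L) = 0 := by linear_combination h0 - h1
      exact one_ne_zero this
  obtain ⟨P, hP, hP0, hP1, hPe⟩ : Rel κ (zd D b3) (xc b2) u1 C1 :=
    slope hELM W2 W3 g' D0 (xc b2) (xc b3) (zd D b3) ((4 : κ) ^ e) hCD.trb hCD.irr'.ne_zero
      hCD.deg' hCD.on' (by rw [map_pow, map_ofNat]; exact hDF.eb) hDF.nb
  have hev : ∀ r : L, aeval ![zd D b3, xc a2, r] (rename ![0, 2] P) = aeval ![zd D b3, r] P := by
    intro r
    rw [aeval_rename]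
    congr 2
    funext i
    fin_cases i <;> rfl
  have r4 : Rel κ (xc b2) (xc a2) (2 * (U * 1 * C1))
      (2 * (U * 1 * C1) * (u1 * (U * (1 * C1 + 1 * (B * d))) + 0 * 1)) := by
    refine hELM κ L (xc a2) (zd D b3) (xc a2) (xc b2) U (U * (1 * C1 + 1 * (B * d))) 1 1 u1 0 C1
      (rename ![0, 2] P) hCD.tra r2 (rel_self κ _) ?_ ?_ ?_ ?_ ?_
    · refine deg_ren _ _ _ _ hf fun i hi => ?_
      fin_cases i
      · exact hP0
      · simp at hi
    · refine deg_ren _ _ _ _ hf fun i hi => ?_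
      fin_cases i <;> simp at hi
    · refine deg_ren _ _ _ _ hf fun i hi => ?_
      fin_cases i
      · simp at hi
      · exact hP1
    · rw [hev, hPe]
    · obtain ⟨c, hc⟩ := exists_ne (zd D b3) (tra_of _ hnr) P hP
      exact ⟨c, by rw [hev]; exact hc⟩
  obtain ⟨R, hR, -, hR1, hRe⟩ := r4
  have h5 := hTORS k κ L W2 e a2 ((2 ^ e) • a2 - b2) hCD.a2n hCD.tra hCD.kw R hR
    (by rw [sub_sub_cancel]; exact hRe)
  refine h5.trans (hR1.trans ?_)
  have h6 : 1 * C1 + 1 * (B * d) ≤ (C1 + B) * d := by nlinarith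
  calc 2 * (U * 1 * C1) * (u1 * (U * (1 * C1 + 1 * (B * d))) + 0 * 1)
      ≤ 2 * (U * 1 * C1) * (u1 * (U * ((C1 + B) * d)) + 0 * 1) := by gcongr
    _ = 2 * (U * 1 * C1) * (u1 * (U * (C1 + B))) * d := by ring

end Pool.Agent.Helper18.T3.CASA
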